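import Pool.Agent.Q138.PS.UG
import Pool.Agent.Results.MP_fd8838_nt.ExceptionalCapture

/-!
# Möller's maps: the orbits of the numbers `⌊α P(n)⌋`

Let `q ≥ 2`. Outside a set of real numbers of Hausdorff dimension at most `q / (q + 1 / (q 2 ^ (q - 1)))` (that is
`8 / 9` for `q = 2`) every `α > 0` has the following property, for all of Möller's maps and for ALL integral polynomials
`P` of degree `q` with positive leading coefficient and coefficients of size at most `N ^ η`: for at most `N ^ (1 - η)` of the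
`n ≤ N` the number `⌊α P(n)⌋` belongs to the exceptional set `E(d, m, R)`, and for all `1 ≤ y ≤ N ^ η`, for all but `C N / y ^ c`
of the `n ≤ N` the orbit of `± ⌊α P(n)⌋` enters `[-y, y]` and passes through an element `≤ y` of `E(d, m, R)` if it stays positive.
-/

set_option autoImplicit false

namespace Pool.Agent.Results.MP_fd8838_nt.CaptureAlongRealMultiples

open Finset Filter Topology
open Pool.Agent.Q138.PS
open Pool.Agent.Results.MP_fd8838_nt.ExceptionalCapture (T E)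

open Classical in
/-- the number of the `1 ≤ n ≤ N` for which `⌊α P(n)⌋` has the property `Z` -/
noncomputable def count (Z : ℕ → Prop) (α : ℝ) (P : Polynomial ℤ) (N : ℕ) : ℕ :=
  ((Icc 1 N).filter fun n : ℕ => Z ⌊α * ((P.eval (n : ℤ) : ℤ) : ℝ)⌋₊).card

/-- the `T`-orbit of `x` stays positive and passes through no element `≤ y` of `E(d, m, R)` -/
def NotCaptured (d m : ℕ) (r : ℕ → ℤ) (y x : ℕ) : Prop :=
  (∀ k : ℕ, 0 < (T d m r)^[k] (x : ℤ)) ∧ ∀ k : ℕ, (T d m r)^[k] (x : ℤ) ∈ E d m r → (y : ℤ) < (T d m r)^[k] (x : ℤ)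

/-- the `T`-orbit of `x` or that of `-x` never enters `[-y, y]` -/
def Avoids (d m : ℕ) (r : ℕ → ℤ) (y x : ℕ) : Prop :=
  (∀ k : ℕ, (y : ℤ) < |(T d m r)^[k] (x : ℤ)|) ∨ ∀ k : ℕ, (y : ℤ) < |(T d m r)^[k] (-(x : ℤ))|

theorem count_eq (Z : ℕ → Prop) (α : ℝ) (P : Polynomial ℤ) (N : ℕ) : (count Z α P N : ℝ) = cnP Z α P N := by
  classical
  unfold count cnP cn
  refine congrArg _ (congrArg _ ?_)
  ext n
  simp only [mem_filter]

/-- the offsets given by a list -/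
def rl (l : List ℤ) (j : ℕ) : ℤ := l.getD j 0

theorem T_congr {d m : ℕ} (hd : 2 ≤ d) {r r' : ℕ → ℤ} (h : ∀ j < d, r j = r' j) : T d m r = T d m r' := by
  funext n
  unfold T
  have h0 : (n % (d : ℤ)).toNat < d := by
    have h1 := Int.emod_nonneg n (show (d : ℤ) ≠ 0 by omega)
    have h2 := Int.emod_lt_of_pos n (show (0 : ℤ) < d by omega)
    omega
  rw [h _ h0]

theorem rl_ofFn (d : ℕ) (r : ℕ → ℤ) (j : ℕ) (hj : j < d) : rl (List.ofFn fun i : Fin d => r i) j = r j := by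
  unfold rl
  rw [List.getD_eq_getElem _ _ (by simpa using hj), List.getElem_ofFn]

section bounds

variable {d m : ℕ} {r : ℕ → ℤ} {c C : ℝ}
  (h : ∀ X y : ℝ, 1 ≤ X → 1 ≤ y →
        (Set.ncard {n : ℤ | 1 ≤ n ∧ (n : ℝ) ≤ X ∧ (∀ k : ℕ, 0 < (T d m r)^[k] n) ∧
          ∀ k : ℕ, (T d m r)^[k] n ∈ E d m r → y < (((T d m r)^[k] n : ℤ) : ℝ)} : ℝ) ≤ C * X / y ^ c ∧
        (Set.ncard {x : ℤ | |(x : ℝ)| ≤ X ∧ ∀ k : ℕ, y < |(((T d m r)^[k] x : ℤ) : ℝ)|} : ℝ) ≤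
          C * X / y ^ c)

include h

theorem cn_cap (Y y : ℕ) (hY : 1 ≤ Y) (hy : 1 ≤ y) : cn (NotCaptured d m r y) Y ≤ C * Y / (y : ℝ) ^ c := by
  refine le_trans ?_ (h Y y (by exact_mod_cast hY) (by exact_mod_cast hy)).1
  rw [cn_ncard]
  refine Nat.cast_le.2 (Set.ncard_le_ncard_of_injOn (fun n : ℕ => (n : ℤ)) ?_ ?_ ?_)
  · rintro n ⟨h1, h2, h3, h4⟩
    refine ⟨by exact_mod_cast h1, by exact_mod_cast h2, h3, fun k hk => ?_⟩
    exact_mod_cast h4 k hk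
  · intro a _ b _ hab
    exact Int.ofNat.inj hab
  · refine (Set.finite_Icc (1 : ℤ) Y).subset ?_
    rintro n ⟨h1, h2, -⟩
    exact ⟨h1, by exact_mod_cast h2⟩

theorem cn_avoid (Y y : ℕ) (hY : 1 ≤ Y) (hy : 1 ≤ y) : cn (Avoids d m r y) Y ≤ 2 * C * Y / (y : ℝ) ^ c := by
  have h0 := (h Y y (by exact_mod_cast hY) (by exact_mod_cast hy)).2
  have hfin : {x : ℤ | |(x : ℝ)| ≤ (Y : ℝ) ∧ ∀ k : ℕ, (y : ℝ) < |(((T d m r)^[k] x : ℤ) : ℝ)|}.Finite := by
    refine (Set.finite_Icc (-(Y : ℤ)) Y).subset ?_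
    rintro x ⟨hx, -⟩
    have h1 : |x| ≤ (Y : ℤ) := by exact_mod_cast hx
    exact abs_le.1 h1
  have h1 : ∀ s : ℤ, s = 1 ∨ s = -1 → ({n : ℕ | 1 ≤ n ∧ n ≤ Y ∧ ∀ k : ℕ, (y : ℤ) < |(T d m r)^[k] (s * (n : ℤ))|}.ncard : ℝ) ≤
      C * Y / (y : ℝ) ^ c := by
    intro s hs
    refine le_trans ?_ h0
    refine Nat.cast_le.2 (Set.ncard_le_ncard_of_injOn (fun n : ℕ => s * (n : ℤ)) ?_ ?_ hfin)
    · rintro n ⟨g1, g2, g3⟩
      refine ⟨?_, fun k => ?_⟩
      · have : |s * (n : ℤ)| ≤ (Y : ℤ) := by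
          rw [abs_mul, Nat.abs_cast]
          rcases hs with rfl | rfl <;> simpa using g2
        exact_mod_cast this
      · exact_mod_cast g3 k
    · intro a _ b _ hab
      rcases hs with rfl | rfl <;> simpa using hab
  have h2 := h1 1 (Or.inl rfl)
  have h3 := h1 (-1) (Or.inr rfl)
  simp only [one_mul, neg_one_mul] at h2 h3
  rw [cn_ncard]
  have h4 : ({n : ℕ | 1 ≤ n ∧ n ≤ Y ∧ Avoids d m r y n}.ncard : ℝ) ≤
      ({n : ℕ | 1 ≤ n ∧ n ≤ Y ∧ ∀ k : ℕ, (y : ℤ) < |(T d m r)^[k] (n : ℤ)|}.ncard : ℝ) +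
      ({n : ℕ | 1 ≤ n ∧ n ≤ Y ∧ ∀ k : ℕ, (y : ℤ) < |(T d m r)^[k] (-(n : ℤ))|}.ncard : ℝ) := by
    rw [← Nat.cast_add]
    refine Nat.cast_le.2 (le_trans (Set.ncard_le_ncard ?_ ?_) (Set.ncard_union_le _ _))
    · rintro n ⟨g1, g2, g3 | g3⟩
      · exact Or.inl ⟨g1, g2, g3⟩
      · exact Or.inr ⟨g1, g2, g3⟩
    · refine (Set.finite_Iic Y).subset ?_
      rintro n (⟨-, g2, -⟩ | ⟨-, g2, -⟩) <;> exact g2
  have h5 : 2 * C * Y / (y : ℝ) ^ c = C * Y / (y : ℝ) ^ c + C * Y / (y : ℝ) ^ c := by ring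
  linarith

omit h in
/-- the elements of `E(d, m, R)` that exceed all offsets have positive orbits, with no small element of `E(d, m, R)` -/
theorem notCaptured_of_E (hd : 2 ≤ d) (hm : 2 ≤ m) {M : ℕ} (hdM : d ≤ M) (hM : ∀ j < d, 1 ≤ j → r j ≤ M) {e : ℕ}
    (he : (e : ℤ) ∈ E d m r) (heM : M < e) {y : ℕ} (hy : y < e) : NotCaptured d m r y e := by
  obtain ⟨h1, h2, h3⟩ := he
  have hd0 : (0 : ℤ) < d := by omega
  have hpos : ∀ k : ℕ, ∀ j ≤ k, 0 < (T d m r)^[j] (e : ℤ) := by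
    intro k
    induction k with
    | zero =>
      intro j hj
      obtain rfl : j = 0 := by omega
      exact h1
    | succ k ih =>
      intro j hj
      rcases Nat.lt_or_ge k j with h | h
      · obtain rfl : j = k + 1 := by omega
        rw [Function.iterate_succ_apply']
        have hk := ih k le_rfl
        set x : ℤ := (T d m r)^[k] (e : ℤ) with hx
        unfold T
        split_ifs with hdx
        · obtain ⟨t, ht⟩ := hdx
          rw [ht, Int.mul_ediv_cancel_left _ hd0.ne']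
          by_contra hcon
          push Not at hcon
          nlinarith
        · have hex : (e : ℤ) ≤ x := h3 k (fun j hj => ih j hj) hdx
          have e1 := Int.emod_nonneg x (show (d : ℤ) ≠ 0 by omega)
          have e2 := Int.emod_lt_of_pos x hd0
          have e3 : x % (d : ℤ) ≠ 0 := fun h => hdx (Int.dvd_of_emod_eq_zero h)
          have e4 := hM (x % (d : ℤ)).toNat (by omega) (by omega)
          have e5 : (2 : ℤ) ≤ m := by exact_mod_cast hm
          have e6 : (d : ℤ) ≤ M := by exact_mod_cast hdM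
          have e7 : (M : ℤ) < e := by exact_mod_cast heM
          have e8 : (2 : ℤ) * x ≤ m * x := by nlinarith
          have e9 : (1 : ℤ) ≤ (m * x - r (x % (d : ℤ)).toNat) / d := Int.le_ediv_of_mul_le hd0 (by linarith)
          omega
      · exact ih j h
  refine ⟨fun k => hpos k k le_rfl, fun k hk => ?_⟩
  have := h3 k (fun j hj => hpos k j hj) hk.2.1
  have hy' : (y : ℤ) < e := by exact_mod_cast hy
  omega

/-- the exceptional set has a power saving -/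
theorem cn_E (hd : 2 ≤ d) (hm : 2 ≤ m) (hc : 0 < c) (hC : 0 ≤ C) :
    ∃ C' δ : ℝ, 0 < δ ∧ δ ≤ 1 ∧ ∀ Y : ℕ, 3 ≤ Y → cn (fun n => (n : ℤ) ∈ E d m r) Y ≤ C' * (Y : ℝ) ^ (1 - δ) := by
  classical
  set M : ℕ := d + ∑ j ∈ range d, (r j).natAbs with hM
  have hM1 : ∀ j < d, 1 ≤ j → r j ≤ M := by
    intro j hj _
    have h1 : (r j).natAbs ≤ ∑ j ∈ range d, (r j).natAbs :=
      Finset.single_le_sum (f := fun j => (r j).natAbs) (fun _ _ => Nat.zero_le _) (mem_range.2 hj)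
    have h2 : r j ≤ (r j).natAbs := Int.le_natAbs
    omega
  refine ⟨1 + M + C * 2 ^ c, min (1 / 2) (c / 2), by positivity, (min_le_left _ _).trans (by norm_num), fun Y hY => ?_⟩
  set δ : ℝ := min (1 / 2) (c / 2) with hδ
  have hY1 : (1 : ℝ) ≤ Y := by exact_mod_cast (by omega : 1 ≤ Y)
  have hY0 : (0 : ℝ) < Y := by linarith
  set s : ℝ := Real.sqrt Y with hs
  have hs1 : 1 ≤ s := Real.one_le_sqrt.2 hY1
  set y : ℕ := ⌊s⌋₊ with hy
  have hy1 : 1 ≤ y := Nat.le_floor (by exact_mod_cast hs1)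
  have hys : (y : ℝ) ≤ s := Nat.floor_le (by linarith)
  have hys2 : s / 2 ≤ y := by
    have h1 : s < y + 1 := Nat.lt_floor_add_one s
    have h2 : (1 : ℝ) ≤ y := by exact_mod_cast hy1
    linarith
  have h1 := cn_cap h Y y (by omega) hy1
  have hsub : cn (fun n => (n : ℤ) ∈ E d m r) Y ≤ (y + M) + cn (NotCaptured d m r y) Y := by
    rw [cn_ncard, cn_ncard]
    have h2 : ({n : ℕ | 1 ≤ n ∧ n ≤ Y ∧ (n : ℤ) ∈ E d m r}.ncard) ≤
        (Set.Icc 1 (y + M)).ncard + {n : ℕ | 1 ≤ n ∧ n ≤ Y ∧ NotCaptured d m r y n}.ncard := by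
      refine le_trans (Set.ncard_le_ncard ?_ ?_) (Set.ncard_union_le _ _)
      · rintro n ⟨g1, g2, g3⟩
        rcases Nat.lt_or_ge (y + M) n with g4 | g4
        · exact Or.inr ⟨g1, g2, notCaptured_of_E hd hm (by omega) hM1 g3 (by omega) (by omega)⟩
        · exact Or.inl ⟨g1, g4⟩
      · refine (Set.finite_Icc _ _).union ((Set.finite_Iic Y).subset ?_)
        rintro n ⟨-, g2, -⟩
        exact g2
    have h3 : (Set.Icc 1 (y + M)).ncard = y + M := by
      rw [← Finset.coe_Icc, Set.ncard_coe_finset]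
      simp
    rw [h3] at h2
    exact_mod_cast h2
  have hsY : s ≤ (Y : ℝ) ^ (1 - δ) := by
    rw [hs, Real.sqrt_eq_rpow]
    exact Real.rpow_le_rpow_of_exponent_le hY1 (by linarith [min_le_left (1 / 2 : ℝ) (c / 2)])
  have h1Y : (1 : ℝ) ≤ (Y : ℝ) ^ (1 - δ) := hs1.trans hsY
  have h4 : C * Y / (y : ℝ) ^ c ≤ C * 2 ^ c * (Y : ℝ) ^ (1 - δ) := by
    have h5 : (s / 2) ^ c ≤ (y : ℝ) ^ c := Real.rpow_le_rpow (by positivity) hys2 hc.le
    have h6 : (s / 2) ^ c = (Y : ℝ) ^ (c / 2) / 2 ^ c := by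
      rw [Real.div_rpow (by positivity) (by norm_num), hs, Real.sqrt_eq_rpow, ← Real.rpow_mul hY0.le]
      congr 2
      ring
    have h7 : (0 : ℝ) < (Y : ℝ) ^ (c / 2) / 2 ^ c := by positivity
    calc C * Y / (y : ℝ) ^ c ≤ C * Y / ((Y : ℝ) ^ (c / 2) / 2 ^ c) := by
          rw [h6] at h5
          gcongr
      _ = C * 2 ^ c * (Y / (Y : ℝ) ^ (c / 2)) := by field_simp
      _ = C * 2 ^ c * (Y : ℝ) ^ (1 - c / 2) := by
          rw [Real.rpow_sub hY0, Real.rpow_one]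
      _ ≤ _ := by
          have h9 : (Y : ℝ) ^ (1 - c / 2) ≤ (Y : ℝ) ^ (1 - δ) :=
            Real.rpow_le_rpow_of_exponent_le hY1 (by linarith [min_le_right (1 / 2 : ℝ) (c / 2)])
          gcongr
  have h8 : (M : ℝ) ≤ M * (Y : ℝ) ^ (1 - δ) := by
    have : (0 : ℝ) ≤ M := Nat.cast_nonneg _
    nlinarith
  calc cn (fun n => (n : ℤ) ∈ E d m r) Y ≤ (y + M) + C * Y / (y : ℝ) ^ c := by linarith
    _ ≤ (Y : ℝ) ^ (1 - δ) + M * (Y : ℝ) ^ (1 - δ) + C * 2 ^ c * (Y : ℝ) ^ (1 - δ) := by linarith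
    _ = _ := by ring

end bounds

/-- **Theorem.** Let `q ≥ 2`. There is a set `F` of Hausdorff dimension at most `q / (q + 1 / (q 2 ^ (q - 1)))` such that for
each `α > 0` outside `F` and all coprime `d, m ≥ 2` with `m ≤ d ^ (d / (d - 1))` there is `c > 0`, depending only on `d` and `m`, such
that for every admissible `R` there are `C, η > 0` with, for all large `N` and uniformly in `P`:
(1) at most `N ^ (1 - η)` of the `⌊α P(n)⌋`, `n ≤ N`, are in the exceptional set `E(d, m, R)`;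
(2) for `1 ≤ y ≤ N ^ η`, at most `C N / y ^ c` of the `⌊α P(n)⌋`, `n ≤ N`, have an orbit that stays positive and passes through no
element `≤ y` of `E(d, m, R)`;
(3) for `1 ≤ y ≤ N ^ η`, for at most `C N / y ^ c` of the `n ≤ N` the orbit of `⌊α P(n)⌋` or that of `-⌊α P(n)⌋` never enters
`[-y, y]`. -/
theorem result (q : ℕ) (hq : 2 ≤ q) :
    ∃ F : Set ℝ, dimH F ≤ ENNReal.ofReal (q / (q + 1 / ((q : ℝ) * 2 ^ (q - 1)))) ∧ ∀ α : ℝ, 0 < α → α ∉ F →
      ∀ d m : ℕ, 2 ≤ d → 2 ≤ m → Nat.Coprime m d → (m : ℝ) ≤ (d : ℝ) ^ ((d : ℝ) / ((d : ℝ) - 1)) →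
      ∃ c : ℝ, 0 < c ∧ ∀ r : ℕ → ℤ, (∀ j : ℕ, 1 ≤ j → j < d → r j ≡ m * j [ZMOD d]) →
      ∃ C η : ℝ, 0 < C ∧ 0 < η ∧ ∀ᶠ N : ℕ in atTop, ∀ P : Polynomial ℤ, P.natDegree = q → 0 < P.leadingCoeff →
        (∀ j, |((P.coeff j : ℤ) : ℝ)| ≤ (N : ℝ) ^ η) →
        (count (fun x => (x : ℤ) ∈ E d m r) α P N : ℝ) ≤ (N : ℝ) ^ (1 - η) ∧
        ∀ y : ℕ, 1 ≤ y → (y : ℝ) ≤ (N : ℝ) ^ η →
          (count (NotCaptured d m r y) α P N : ℝ) ≤ C * N / (y : ℝ) ^ c ∧
          (count (Avoids d m r y) α P N : ℝ) ≤ C * N / (y : ℝ) ^ c := by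
  classical
  obtain ⟨E1, hE1, h1⟩ := exc_nat (ι := (ℕ × ℕ) × List ℤ) q hq (fun i n => (n : ℤ) ∈ E i.1.1 i.1.2 (rl i.2))
  obtain ⟨E2, hE2, h2⟩ := tail_nat (ι := (ℕ × ℕ) × List ℤ) q hq (fun i y => NotCaptured i.1.1 i.1.2 (rl i.2) y)
  obtain ⟨E3, hE3, h3⟩ := tail_nat (ι := (ℕ × ℕ) × List ℤ) q hq (fun i y => Avoids i.1.1 i.1.2 (rl i.2) y)
  refine ⟨E1 ∪ (E2 ∪ E3), ?_, fun α hα hαE d m hd hm hcop hle => ?_⟩
  · rw [dimH_union, dimH_union]
    exact max_le hE1 (max_le hE2 hE3)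
  simp only [Set.mem_union, not_or] at hαE
  obtain ⟨a1, a2, a3⟩ := hαE
  obtain ⟨c, hc, hseed⟩ := Pool.Agent.Results.MP_fd8838_nt.ExceptionalCapture.result d m hd hm hcop hle
  refine ⟨c, hc, fun r hr => ?_⟩
  obtain ⟨C, hC, h⟩ := hseed r hr
  set l : List ℤ := List.ofFn fun i : Fin d => r i with hl
  have hT : T d m (rl l) = T d m r := T_congr hd fun j hj => rl_ofFn d r j hj
  have hE : E d m (rl l) = E d m r := by
    unfold E
    rw [hT]
  have hN : ∀ y, NotCaptured d m (rl l) y = NotCaptured d m r y := by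
    intro y
    unfold NotCaptured
    rw [hT, hE]
  have hA : ∀ y, Avoids d m (rl l) y = Avoids d m r y := by
    intro y
    unfold Avoids
    rw [hT]
  obtain ⟨C', δ, hδ, hδ1, hC'⟩ := cn_E h hd hm hc hC.le
  obtain ⟨η1, hη1, -, -, g1⟩ := h1 α hα a1 ((d, m), l)
  have g1' := g1 δ C' hδ hδ1 (by simpa only [hE] using hC')
  obtain ⟨η2, hη2, g2⟩ := h2 α hα a2 ((d, m), l) c C hc hC.le (by simpa only [hN] using fun Y y hY hy => cn_cap h Y y hY hy)
  obtain ⟨η3, hη3, g3⟩ := h3 α hα a3 ((d, m), l) c (2 * C) hc (by linarith)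
    (by simpa only [hA] using fun Y y hY hy => cn_avoid h Y y hY hy)
  set η : ℝ := min (min (δ / 4) (η1 / 2)) (min η2 η3) with hη
  have b1 : η ≤ η1 := (min_le_left _ _).trans ((min_le_right _ _).trans (by linarith))
  have b2 : η ≤ η2 := (min_le_right _ _).trans (min_le_left _ _)
  have b3 : η ≤ η3 := (min_le_right _ _).trans (min_le_right _ _)
  have b4 : η ≤ min (δ / 4) (η1 / 2) := min_le_left _ _
  refine ⟨10 * C + 1, η, by positivity, by positivity, ?_⟩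
  filter_upwards [g1', g2, g3, eventually_ge_atTop 1] with N k1 k2 k3 hN1
  intro P hdeg hlead hco
  have hN1r : (1 : ℝ) ≤ N := by exact_mod_cast hN1
  have hmono : ∀ {a b : ℝ}, a ≤ b → (N : ℝ) ^ a ≤ (N : ℝ) ^ b := fun hab => Real.rpow_le_rpow_of_exponent_le hN1r hab
  refine ⟨?_, fun y hy1 hyN => ⟨?_, ?_⟩⟩
  · rw [count_eq]
    have k := k1 P hdeg hlead (fun j => (hco j).trans (hmono b1))
    simp only [hE] at k
    exact k.trans (hmono (by linarith))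
  · rw [count_eq]
    have k := k2 P hdeg hlead (fun j => (hco j).trans (hmono b2)) y hy1 (hyN.trans (hmono b2))
    simp only [hN] at k
    refine k.trans ?_
    gcongr
    linarith
  · rw [count_eq]
    have k := k3 P hdeg hlead (fun j => (hco j).trans (hmono b3)) y hy1 (hyN.trans (hmono b3))
    simp only [hA] at k
    refine k.trans (le_of_eq ?_)
    ring

end Pool.Agent.Results.MP_fd8838_nt.CaptureAlongRealMultiples
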