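import Mathlib
import Pool.Agent.Q205.RP.Expand3

/-!
# Möller's threshold for almost every perturbation

`T n = n / d` if `d ∣ n` and `T n = (m n - r j) / d` if `n ≡ j ≠ 0 (mod d)`; the `H`-orbit of the
problem consists of the points of the `T`-orbit prime to the class `0`. For
`ω : ℤ → {0, …, d-1}` let `U n = T (n + ω n)` and let `E` be the set of all `n ≥ 1` with
`U^k n ≥ n` for all `k`. For almost every `ω` and all admissible `r` at once, `E` is finite if
`m ^ (d-1) < d ^ d` and infinite if `m ^ (d-1) > d ^ d`.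
-/

set_option autoImplicit false

open MeasureTheory Finset Filter

namespace Pool.Agent.Results.MP_fd8838_nt.RandomEnvironmentThreshold

/-- The residue of `x` modulo `d`. -/
def residue (d : ℕ) [NeZero d] (x : ℤ) : Fin d :=
  ⟨(x % (d : ℤ)).toNat, by
    have h1 : (0 : ℤ) < d := by exact_mod_cast NeZero.pos d
    have h2 := Int.emod_nonneg x h1.ne'
    have h3 := Int.emod_lt_of_pos x h1
    omega⟩

/-- Heppner's form of the map: `n / d` if `d` divides `n`, otherwise `(m n - r j) / d` with `j` the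
residue of `n`. -/
def T (d : ℕ) [NeZero d] (m : ℕ) (r : Fin d → ℤ) (n : ℤ) : ℤ :=
  if residue d n = 0 then n / (d : ℤ) else ((m : ℤ) * n - r (residue d n)) / (d : ℤ)

/-- The perturbed map: the argument `n` is replaced by `n + ω n`. -/
def U (d : ℕ) [NeZero d] (m : ℕ) (r : Fin d → ℤ) (ω : ℤ → Fin d) (n : ℤ) : ℤ :=
  T d m r (n + ((ω n : ℕ) : ℤ))

/-- The positive integers below which the trajectory never goes. -/
def E (f : ℤ → ℤ) : Set ℤ := {n | 1 ≤ n ∧ ∀ k : ℕ, n ≤ f^[k] n}

/-- The law of independent uniform choices from `{0, …, d-1}`, one for each integer. -/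
noncomputable def noise (d : ℕ) [NeZero d] : Measure (ℤ → Fin d) :=
  Measure.infinitePi (fun _ : ℤ => (PMF.uniformOfFintype (Fin d)).toMeasure)

/-- multipliers -/
def mult (d : ℕ) [NeZero d] (m : ℕ) (i : Fin d) : ℤ := if i = 0 then 1 else m

/-- remainders -/
def rem (d : ℕ) [NeZero d] (r : Fin d → ℤ) (i : Fin d) : ℤ := if i = 0 then 0 else r i

theorem T_eq (d : ℕ) [NeZero d] (m : ℕ) (r : Fin d → ℤ) (n : ℤ) :
    T d m r n = Q205.RP.gc (mult d m) (rem d r) n := by
  have h : residue d n = Q205.RP.res d n := rfl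
  unfold T Q205.RP.gc mult rem
  rw [h]
  split_ifs with h1
  · simp
  · rfl

theorem prod_mult (d : ℕ) [NeZero d] (m : ℕ) :
    ∏ i, |((mult d m i : ℤ) : ℝ)| = (m : ℝ) ^ (d - 1) := by
  have h1 : ∀ i : Fin d, |((mult d m i : ℤ) : ℝ)| = if i = 0 then (1 : ℝ) else m := by
    intro i
    unfold mult
    split_ifs <;> simp
  rw [Finset.prod_congr rfl (fun i _ => h1 i)]
  rw [← Finset.mul_prod_erase univ _ (mem_univ (0 : Fin d)), if_pos rfl, one_mul]
  rw [Finset.prod_congr rfl (fun i hi => if_neg (Finset.ne_of_mem_erase hi)), Finset.prod_const,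
    Finset.card_erase_of_mem (mem_univ _), card_univ, Fintype.card_fin]

theorem lin (d : ℕ) [NeZero d] (m : ℕ) (r : Fin d → ℤ)
    (hr : ∀ j : Fin d, j ≠ 0 → r j ≡ m * ((j : ℕ) : ℤ) [ZMOD d]) :
    Q205.RP.Lin (fun (x : ℤ) (c : Fin d) => T d m r (x + ((c : ℕ) : ℤ))) d (mult d m)
      (Q205.RP.RR (mult d m) (rem d r)) := by
  simp only [T_eq]
  apply Q205.RP.lin_gc
  intro i
  unfold mult rem
  split_ifs with h
  · subst h
    simp
  · exact (hr i h).dvd

/-- The trajectory of a positive number far from the ball stays positive. -/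
theorem stays_pos (f : ℤ → ℤ) (N : ℕ) (hf : ∀ y : ℤ, (N : ℤ) < y → 0 < f y) {x : ℤ} (hx : 0 < x)
    (h : ∀ i, (N : ℤ) < |f^[i] x|) (i : ℕ) : (N : ℤ) < f^[i] x := by
  have key : ∀ i, 0 < f^[i] x := by
    intro i
    induction i with
    | zero => exact hx
    | succ i ih =>
      rw [Function.iterate_succ_apply']
      apply hf
      have := h i
      rwa [abs_of_pos ih] at this
  have := h i
  rwa [abs_of_pos (key i)] at this

/-- A positive trajectory that does not close contains infinitely many points of `E`. -/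
theorem E_infinite (f : ℤ → ℤ) {x : ℤ} (hpos : ∀ i, 0 < f^[i] x)
    (hinj : ∀ i j : ℕ, f^[i] x = f^[j] x → i = j) : (E f).Infinite := by
  have h1 : Tendsto (fun n : ℕ => f^[n] x) atTop atTop := by
    have hinj' : Function.Injective (fun n : ℕ => f^[n] x) := fun i j h => hinj i j h
    have h2 := hinj'.tendsto_cofinite
    rw [Nat.cofinite_eq_atTop, Int.cofinite_eq] at h2
    have h3 : Tendsto (fun y : ℤ => |y|) (atBot ⊔ atTop) atTop :=
      Filter.tendsto_sup.2 ⟨tendsto_abs_atBot_atTop, tendsto_abs_atTop_atTop⟩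
    have h4 := h3.comp h2
    apply h4.congr
    intro n
    exact abs_of_pos (hpos n)
  apply Set.infinite_of_not_bddAbove
  rintro ⟨M, hM⟩
  obtain ⟨n0, hn0⟩ := eventually_atTop.1 (h1.eventually_gt_atTop M)
  obtain ⟨_, ⟨k, rfl⟩, hk⟩ := WellFounded.has_min Nat.lt_wfRel.wf
    (Set.range (fun n : ℕ => (f^[n0 + n] x).toNat)) ⟨_, 0, rfl⟩
  have hmem : f^[n0 + k] x ∈ E f := by
    refine ⟨hpos _, fun j => ?_⟩
    have h2 := hk _ ⟨j + k, rfl⟩
    have h3 : ¬ (f^[n0 + (j + k)] x).toNat < (f^[n0 + k] x).toNat := h2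
    rw [← Function.iterate_add_apply, show j + (n0 + k) = n0 + (j + k) by ring]
    have h4 := hpos (n0 + (j + k))
    have h5 := hpos (n0 + k)
    omega
  have h2 := hM hmem
  have h3 := hn0 (n0 + k) (by omega)
  omega

/-- The equality case does not occur. -/
theorem pow_ne {d m : ℕ} (hd : 2 ≤ d) (hcop : Nat.Coprime m d) : m ^ (d - 1) ≠ d ^ d := by
  intro h
  have h1 : Nat.Coprime (m ^ (d - 1)) (d ^ d) := Nat.Coprime.pow _ _ hcop
  rw [h, Nat.coprime_self] at h1
  have h2 : 1 < d ^ d := Nat.one_lt_pow (by omega) (by omega)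
  omega

theorem result (d : ℕ) [NeZero d] (hd : 2 ≤ d) (m : ℕ) (hm : 1 ≤ m) (hcop : Nat.Coprime m d) :
    (m ^ (d - 1) ≤ d ^ d → ∀ᵐ ω ∂(noise d), ∀ r : Fin d → ℤ,
      (∀ j : Fin d, j ≠ 0 → r j ≡ m * ((j : ℕ) : ℤ) [ZMOD d]) → (E (U d m r ω)).Finite) ∧
    (d ^ d < m ^ (d - 1) → ∀ᵐ ω ∂(noise d), ∀ r : Fin d → ℤ,
      (∀ j : Fin d, j ≠ 0 → r j ≡ m * ((j : ℕ) : ℤ) [ZMOD d]) → (E (U d m r ω)).Infinite) := by
  have hd0 : (0 : ℝ) < d := by
    have := NeZero.pos d
    exact_mod_cast this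
  have hne := pow_ne hd hcop
  have hm0 : ∀ i, mult d m i ≠ 0 := fun i => by
    unfold mult
    split_ifs
    · exact one_ne_zero
    · have : m ≠ 0 := by omega
      exact_mod_cast this
  have hmcop : ∀ i, IsCoprime (mult d m i) (d : ℤ) := fun i => by
    unfold mult
    split_ifs
    · exact isCoprime_one_left
    · exact Nat.isCoprime_iff_coprime.2 hcop
  constructor
  · intro hle
    have hlt : m ^ (d - 1) < d ^ d := lt_of_le_of_ne hle hne
    have hprod : ∏ i, |((mult d m i : ℤ) : ℝ)| < (d : ℝ) ^ d := by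
      rw [prod_mult]
      exact_mod_cast hlt
    rw [ae_all_iff]
    intro r
    by_cases hr : ∀ j : Fin d, j ≠ 0 → r j ≡ m * ((j : ℕ) : ℤ) [ZMOD d]
    swap
    · filter_upwards with ω h
      exact absurd h hr
    have hG := lin d m r hr
    have h1 := Q205.RP.main_contracting _ hm0 hG hprod
    obtain ⟨q, hq, hdq, hqm⟩ : ∃ q : ℕ, 2 ≤ q ∧ Nat.Coprime d q ∧
        ∀ i, ∃ e ≤ 1, mult d m i = (q : ℤ) ^ e := by
      rcases Nat.lt_or_ge m 2 with h | h
      · refine ⟨d + 1, by omega, by simp, fun i => ⟨0, by omega, ?_⟩⟩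
        have : m = 1 := by omega
        subst this
        unfold mult
        split_ifs <;> simp
      · refine ⟨m, h, hcop.symm, fun i => ?_⟩
        unfold mult
        split_ifs
        · exact ⟨0, by omega, by simp⟩
        · exact ⟨1, by omega, by simp⟩
    have h2 := Q205.RP.main_cycles _ hd hq hdq hqm (Q205.RP.RR_ge _ _) hG hprod.ne
    change ∀ᵐ ω ∂(Q205.RP.P d), _
    filter_upwards [h1, h2] with ω hω1 hω2 _
    have hU : Q205.RP.Tn (fun (x : ℤ) (c : Fin d) => T d m r (x + ((c : ℕ) : ℤ))) ω =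
      U d m r ω := rfl
    rw [hU] at hω1 hω2
    obtain ⟨K, hK⟩ := hω1
    obtain ⟨M, hM⟩ := hω2.bddAbove
    apply (Set.finite_Icc (1 : ℤ) M).subset
    rintro n ⟨hn1, hn2⟩
    obtain ⟨i, j, hij, _, h4⟩ := hK n
    exact ⟨hn1, (hn2 i).trans (hM (Q205.RP.mem_periodicPts_of_eq _ hij h4))⟩
  · intro hlt
    have hprod : (d : ℝ) ^ d < ∏ i, |((mult d m i : ℤ) : ℝ)| := by
      rw [prod_mult]
      exact_mod_cast hlt
    rw [ae_all_iff]
    intro r
    by_cases hr : ∀ j : Fin d, j ≠ 0 → r j ≡ m * ((j : ℕ) : ℤ) [ZMOD d]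
    swap
    · filter_upwards with ω h
      exact absurd h hr
    have hG := lin d m r hr
    -- far out the map preserves positivity
    obtain ⟨N, hN⟩ : ∃ N : ℕ, ∀ (c : Fin d) (y : ℤ), (N : ℤ) < y →
        0 < T d m r (y + ((c : ℕ) : ℤ)) := by
      obtain ⟨N, hN⟩ := exists_nat_gt (Q205.RP.RR (mult d m) (rem d r))
      refine ⟨N, fun c y hy => ?_⟩
      obtain ⟨σ, hσ⟩ := hG y
      obtain ⟨ρ, h1, h2⟩ := hσ c
      have h3 : (1 : ℤ) ≤ mult d m (σ c) := by
        unfold mult
        split_ifs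
        · exact le_refl _
        · exact_mod_cast hm
      have h4 : -(N : ℤ) < ρ := by
        have : (-(N : ℝ)) < ρ := by
          have := (abs_le.1 h2).1
          linarith
        exact_mod_cast this
      have h5 : 0 < (d : ℤ) * T d m r (y + ((c : ℕ) : ℤ)) := by
        rw [h1]
        nlinarith
      have h6 : (0 : ℤ) < d := by omega
      exact (mul_pos_iff_of_pos_left h6).1 h5
    obtain ⟨θ, C, hθ, hθ1, hC, h⟩ := Q205.RP.main_expanding' _ N hd hmcop
      (by linarith [Q205.RP.RR_ge (mult d m) (rem d r)]) hG hprod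
    have hsum : Summable (fun j : ℕ => C * Q205.RP.VV (-θ) (2 ^ j)) := by
      apply Summable.mul_left
      have hgeo : Summable (fun j : ℕ => ((2 : ℝ) ^ (-θ)) ^ j) := by
        apply summable_geometric_of_lt_one (by positivity)
        exact Real.rpow_lt_one_of_one_lt_of_neg (by norm_num) (by linarith)
      apply Summable.of_nonneg_of_le (fun j => (Q205.RP.VV_pos _ _).le) _ hgeo
      intro j
      unfold Q205.RP.VV
      rw [← Real.rpow_natCast, ← Real.rpow_mul (by norm_num), mul_comm, Real.rpow_mul (by norm_num),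
        Real.rpow_natCast]
      apply Real.rpow_le_rpow_of_nonpos (by positivity) _ (by linarith)
      push_cast
      rw [abs_of_nonneg (by positivity)]
      linarith
    have hbc := Q205.RP.bc (μ := Q205.RP.P d) _ _ hsum (fun j => h (2 ^ j))
    change ∀ᵐ ω ∂(Q205.RP.P d), _
    filter_upwards [hbc] with ω hω _
    obtain ⟨j, hj⟩ := hω.exists_notMem
    simp only [Set.mem_ofPred_eq, not_or, not_exists, not_le] at hj
    obtain ⟨hj1, hj2⟩ := hj
    have hU : Q205.RP.Tn (fun (x : ℤ) (c : Fin d) => T d m r (x + ((c : ℕ) : ℤ))) ω =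
      U d m r ω := rfl
    rw [hU] at hj1 hj2
    apply E_infinite (U d m r ω) (x := 2 ^ j)
    · intro i
      have := stays_pos (U d m r ω) N (fun y hy => hN (ω y) y hy) (by positivity) hj2 i
      omega
    · intro a b hab
      by_contra hne'
      rcases lt_or_gt_of_ne hne' with h1 | h1
      · exact hj1 ⟨a, b, h1, hab⟩
      · exact hj1 ⟨b, a, h1, hab.symm⟩

end Pool.Agent.Results.MP_fd8838_nt.RandomEnvironmentThreshold
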