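import Pool.Agent.Q263.MG.Traj
import Pool.Agent.Y927.GP.M2

/-!
# Möller's exceptional sets at the integers with restricted digits

Let `gcd(m, d) = 1`, let `R` be admissible, `f` a nonconstant polynomial with integer coefficients and
`q ≥ 2` a base coprime to `d`. For every position a set of at least two digits in base `q` is given. Of the
integers below `q ^ k` with digits in these sets all but a power saving proportion are such that the orbit of
`f n` has the expected profile; if `m ≤ d^(d/(d-1))` then `f n` is not in the exceptional set `E(d, m, R)` and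
the orbit of `f n` goes down to a power of exponent less than one. All constants depend only on `d`, `m`, `R`,
`f` and `q`.
-/

set_option autoImplicit false

namespace Pool.Agent.Results.MP_fd8838_nt.RestrictedDigits

open Finset Filter Polynomial Pool.Agent.Y927.GP

/-- The generalised Hasse-Syracuse map `H(x) = (m x - r_j) / d ^ a(x)`, where `j` is the residue of
`x` modulo `d` and `d ^ a(x)` is the largest power of `d` dividing `m x - r_j`. -/
noncomputable def H (d m : ℕ) (r : ℤ → ℤ) (x : ℤ) : ℤ :=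
  (m * x - r (x % d)) / (d : ℤ) ^ multiplicity (d : ℤ) (m * x - r (x % d))

/-- The map `T`: `x / d` if `d` divides `x`, `(m x - r_j) / d` if `x ≡ j` modulo `d`, `1 ≤ j < d`. -/
def T (d m : ℕ) (r : ℤ → ℤ) (x : ℤ) : ℤ := if x % d = 0 then x / d else (m * x - r (x % d)) / d

/-- The iterate `H^k(y)` is defined: the orbit does not stop before (it stops at `z` if
`m z ≤ r_j`, where `z ≡ j` modulo `d`). -/
def Defined (d m : ℕ) (r : ℤ → ℤ) (y : ℤ) (k : ℕ) : Prop :=
  ∀ i < k, r ((H d m r)^[i] y % d) < m * (H d m r)^[i] y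

/-- The exceptional set `E(d, m, R)`: the positive integers `n` not divisible by `d` such that
`H^k(n) ≥ n` for all `k ≥ 1` for which `H^k(n)` is defined. -/
def E (d m : ℕ) (r : ℤ → ℤ) : Set ℤ :=
  {n | 0 < n ∧ ¬ (d : ℤ) ∣ n ∧ ∀ k, 1 ≤ k → Defined d m r n k → n ≤ (H d m r)^[k] n}

/-- The integers less than `q ^ k` whose `i`-th digit in base `q` belongs to `D i` for `i < k`. -/
def Dig (q k : ℕ) (D : Fin k → Finset ℕ) : Finset ℕ :=
  (range (q ^ k)).filter (fun n => ∀ i : Fin k, n / q ^ (i : ℕ) % q ∈ D i)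

/-- `D` consists of `k` sets of digits in base `q`, each with at least two elements. -/
def Digits (q k : ℕ) (D : Fin k → Finset ℕ) : Prop :=
  (∀ i, ∀ d ∈ D i, d < q) ∧ ∀ i, 2 ≤ (D i).card

/-- The first terms of the orbit of `x` under `T`, up to the time `t / log d`, follow the profile
`θ ^ j |x|`, `θ = m ^ ((d - 1) / d) / d`, up to a factor `exp (ε t)`. -/
def Prof (d m : ℕ) (r : ℤ → ℤ) (ε t : ℝ) (x : ℤ) : Prop := ∀ j : ℕ, j * Real.log d ≤ t →
  Real.exp (-(ε * t)) * (((m : ℝ) ^ (((d : ℝ) - 1) / d) / d) ^ j * |(x : ℝ)|) ≤ |(((T d m r)^[j] x : ℤ) : ℝ)| ∧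
    |(((T d m r)^[j] x : ℤ) : ℝ)| ≤ Real.exp (ε * t) * (((m : ℝ) ^ (((d : ℝ) - 1) / d) / d) ^ j * |(x : ℝ)|)

/-- The `H`-orbit of `x` has a positive term which is at most `x ^ s`. -/
def Low (d m : ℕ) (r : ℤ → ℤ) (s : ℝ) (x : ℤ) : Prop :=
  ∃ k : ℕ, Defined d m r x k ∧ 0 < (H d m r)^[k] x ∧ (((H d m r)^[k] x : ℤ) : ℝ) ≤ (x : ℝ) ^ s

/-- from exponentials to powers, all `k` -/
lemma convert {q : ℕ} (hq : 2 ≤ q) {δ : ℝ} (hδ : 0 < δ) (k₀ : ℕ) (B : ∀ (k : ℕ) (_ : Fin k → Finset ℕ), Finset ℕ)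
    (hB : ∀ k D, B k D ⊆ Dig q k D) (h : ∀ k, k₀ ≤ k → ∀ D : Fin k → Finset ℕ, Digits q k D →
      ((B k D).card : ℝ) ≤ Real.exp (-(δ * k)) * ((Dig q k D).card : ℝ)) :
    ∀ s : ℝ, s ≤ δ / Real.log q → s ≤ 1 → ∀ (k : ℕ) (D : Fin k → Finset ℕ), Digits q k D →
      ((B k D).card : ℝ) ≤ (q : ℝ) ^ k₀ * ((Dig q k D).card : ℝ) ^ (1 - s) := by
  intro s hs hs1 k D hD
  have hq1 : (1 : ℝ) < q := by exact_mod_cast (by omega : 1 < q)
  have hq0 : (0 : ℝ) < q := by linarith
  have hlq : 0 < Real.log q := Real.log_pos hq1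
  have h1 : (1 : ℝ) ≤ ((Dig q k D).card : ℝ) := by
    have := Pool.Agent.Q263.MD.Dig_ge (b := q) D hD.1 hD.2
    have h2 : 1 ≤ 2 ^ k := Nat.one_le_two_pow
    exact_mod_cast h2.trans this
  have hle : ((Dig q k D).card : ℝ) ≤ (q : ℝ) ^ k := by exact_mod_cast Pool.Agent.Q263.MD.Dig_le (b := q) D
  have hc0 : (0 : ℝ) < ((Dig q k D).card : ℝ) := by linarith
  rcases le_or_gt k₀ k with hk | hk
  · refine (h k hk D hD).trans ?_
    have h3 : Real.exp (-(δ * k)) ≤ ((Dig q k D).card : ℝ) ^ (-s) := by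
      have h4 : ((Dig q k D).card : ℝ) ^ s ≤ Real.exp (δ * k) := by
        rcases le_or_gt 0 s with hs0 | hs0
        · calc ((Dig q k D).card : ℝ) ^ s ≤ ((q : ℝ) ^ k) ^ s := Real.rpow_le_rpow hc0.le hle hs0
            _ = Real.exp (s * (k * Real.log q)) := by
                rw [← Real.rpow_natCast, ← Real.rpow_mul hq0.le, Real.rpow_def_of_pos hq0]
                congr 1
                ring
            _ ≤ Real.exp (δ * k) := by
                apply Real.exp_le_exp.2
                have h5 : s * Real.log q ≤ δ := by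
                  rwa [le_div_iff₀ hlq] at hs
                calc s * (k * Real.log q) = (s * Real.log q) * k := by ring
                  _ ≤ δ * k := mul_le_mul_of_nonneg_right h5 (Nat.cast_nonneg _)
        · calc ((Dig q k D).card : ℝ) ^ s ≤ 1 := Real.rpow_le_one_of_one_le_of_nonpos h1 hs0.le
            _ ≤ Real.exp (δ * k) := Real.one_le_exp (by positivity)
      rw [Real.rpow_neg hc0.le, Real.exp_neg]
      exact inv_anti₀ (Real.rpow_pos_of_pos hc0 _) h4
    calc Real.exp (-(δ * k)) * ((Dig q k D).card : ℝ) ≤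
        ((Dig q k D).card : ℝ) ^ (-s) * ((Dig q k D).card : ℝ) := mul_le_mul_of_nonneg_right h3 hc0.le
      _ = ((Dig q k D).card : ℝ) ^ (1 - s) := by
          rw [sub_eq_add_neg, Real.rpow_add hc0, Real.rpow_one, mul_comm]
      _ ≤ (q : ℝ) ^ k₀ * ((Dig q k D).card : ℝ) ^ (1 - s) := by
          have : (1 : ℝ) ≤ (q : ℝ) ^ k₀ := one_le_pow₀ hq1.le
          exact le_mul_of_one_le_left (by positivity) this
  · have h2 : ((B k D).card : ℝ) ≤ ((Dig q k D).card : ℝ) := by exact_mod_cast card_le_card (hB k D)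
    have h3 : (q : ℝ) ^ k ≤ (q : ℝ) ^ k₀ := pow_le_pow_right₀ hq1.le hk.le
    have h4 : (1 : ℝ) ≤ ((Dig q k D).card : ℝ) ^ (1 - s) := Real.one_le_rpow h1 (by linarith)
    calc ((B k D).card : ℝ) ≤ (q : ℝ) ^ k₀ := h2.trans (hle.trans h3)
      _ ≤ _ := le_mul_of_one_le_right (by positivity) h4

/-- sizes of values -/
lemma size (q : ℕ) (hq : 2 ≤ q) (f : ℤ[X]) : ∃ B : ℝ, 0 < B ∧ ∀ k n : ℕ, 1 ≤ k → n < q ^ k →
    |((f.eval (n : ℤ) : ℤ) : ℝ)| ≤ Real.exp (B * k) := by
  have hq1 : (1 : ℝ) < q := by exact_mod_cast (by omega : 1 < q)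
  have hq0 : (0 : ℝ) < q := by linarith
  have hlq : 0 < Real.log q := Real.log_pos hq1
  set S : ℝ := ∑ i ∈ range (f.natDegree + 1), |(f.coeff i : ℝ)| with hS
  have hS0 : 0 ≤ S := sum_nonneg fun i _ => abs_nonneg _
  refine ⟨S + (f.natDegree * Real.log q) + 1, by positivity, fun k n hk hn => ?_⟩
  have hn1 : (n : ℝ) ≤ (q : ℝ) ^ k := by exact_mod_cast hn.le
  have hqk : (1 : ℝ) ≤ (q : ℝ) ^ k := one_le_pow₀ hq1.le
  have h1 : |((f.eval (n : ℤ) : ℤ) : ℝ)| ≤ S * ((q : ℝ) ^ k) ^ f.natDegree := by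
    rw [Polynomial.eval_eq_sum_range, hS, sum_mul]
    push_cast
    refine (abs_sum_le_sum_abs _ _).trans (sum_le_sum fun i hi => ?_)
    rw [abs_mul]
    apply mul_le_mul_of_nonneg_left _ (abs_nonneg _)
    rw [mem_range] at hi
    rw [abs_of_nonneg (by positivity)]
    calc (n : ℝ) ^ i ≤ ((q : ℝ) ^ k) ^ i := pow_le_pow_left₀ (Nat.cast_nonneg _) hn1 i
      _ ≤ _ := pow_le_pow_right₀ hqk (by omega)
  refine h1.trans ?_
  have hk1 : (1 : ℝ) ≤ k := by exact_mod_cast hk
  have h2 : S ≤ Real.exp ((S + 1) * k) := by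
    have h3 := Real.add_one_le_exp ((S + 1) * k)
    nlinarith
  have h4 : ((q : ℝ) ^ k) ^ f.natDegree = Real.exp (f.natDegree * Real.log q * k) := by
    rw [← pow_mul]
    have : (q : ℝ) = Real.exp (Real.log q) := (Real.exp_log hq0).symm
    rw [this, ← Real.exp_nat_mul, Real.log_exp]
    congr 1
    push_cast
    ring
  calc S * ((q : ℝ) ^ k) ^ f.natDegree ≤ Real.exp ((S + 1) * k) * Real.exp (f.natDegree * Real.log q * k) := by
        rw [h4]
        exact mul_le_mul_of_nonneg_right h2 (Real.exp_pos _).le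
    _ = _ := by
        rw [← Real.exp_add]
        congr 1
        ring

/-- the `H`-orbit, if the `T`-orbit comes down -/
theorem descent {d m : ℕ} (hd : 2 ≤ d) (hm : 1 ≤ m) {r : ℤ → ℤ} (hr : ∀ j : ℤ, 1 ≤ j → j < d → (d : ℤ) ∣ m * j - r j)
    {y : ℤ} (hy : 0 < y) (hyd : ¬ (d : ℤ) ∣ y) {k : ℕ} {Z : ℝ} (hk : |(((Mo.T d m r)^[k] y : ℤ) : ℝ)| ≤ Z) (hb : (Mo.bd d r : ℝ) ≤ Z) :
    ∃ k' : ℕ, Defined d m r y k' ∧ 0 < (H d m r)^[k'] y ∧ (((H d m r)^[k'] y : ℤ) : ℝ) ≤ Z := by
  obtain ⟨k', h1, h2, h3⟩ := Mo.key hd hm hr (Mo.le_bd (d := d) (r := r)) hy hyd k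
  refine ⟨k', h1, h2, ?_⟩
  have e1 : (Mo.H d m r)^[k'] y = (H d m r)^[k'] y := rfl
  rw [e1] at h2 h3
  rcases h3 with ⟨s, hs, -⟩ | h3
  · have h6 : (H d m r)^[k'] y ≤ (Mo.T d m r)^[k] y := by
      rw [hs]
      have : (1 : ℤ) ≤ (d : ℤ) ^ s := one_le_pow₀ (by omega)
      nlinarith
    have h7 : (((H d m r)^[k'] y : ℤ) : ℝ) ≤ (((Mo.T d m r)^[k] y : ℤ) : ℝ) := by exact_mod_cast h6
    exact h7.trans ((le_abs_self _).trans hk)
  · have h6 : (((H d m r)^[k'] y : ℤ) : ℝ) ≤ ((Mo.bd d r : ℕ) : ℝ) := by exact_mod_cast h3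
    exact h6.trans hb

open Classical in
/-- **Möller's maps and restricted digits.** Let `d ≥ 2`, `gcd(m, d) = 1`, let `R` be admissible, `f` a polynomial of
degree at least `1` with integer coefficients and `q ≥ 2` a base which is coprime to `d`. The constants below do not
depend on `k` nor on the sets of digits `D`.
(1) (For all `m`.) For all `ε > 0` there are `c, s > 0` and `C` such that for all but at most `C |Dig| ^ (1 - s)` of the
elements `n` of `Dig` the orbit of `f n` under `T` follows the profile up to the time `c k / log d`.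
(2) If `m ≤ d ^ (d / (d - 1))` then there are `s > 0` and `C` such that, for all but at most `C |Dig| ^ (1 - s)` of the
elements `n` of `Dig`, `f n` is not in `E(d, m, R)`, and if it is positive and not divisible by `d` then its `H`-orbit has
a positive term which is at most `(f n) ^ (1 - s)`. -/
theorem result (d m : ℕ) (hd : 2 ≤ d) (hm : 1 ≤ m) (hc : Nat.Coprime m d) (r : ℤ → ℤ)
    (hr : ∀ j : ℤ, 1 ≤ j → j < d → r j ≡ m * j [ZMOD d]) (f : ℤ[X]) (hf : 1 ≤ f.natDegree)
    (q : ℕ) (hq : 2 ≤ q) (hqd : Nat.Coprime q d) :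
    (∀ ε : ℝ, 0 < ε → ∃ c s C : ℝ, 0 < c ∧ 0 < s ∧ s < 1 ∧ ∀ (k : ℕ) (D : Fin k → Finset ℕ), Digits q k D →
      (((Dig q k D).filter (fun n : ℕ => ¬ Prof d m r ε (c * k) (f.eval (n : ℤ)))).card : ℝ) ≤
        C * ((Dig q k D).card : ℝ) ^ (1 - s)) ∧
    ((m : ℝ) ≤ (d : ℝ) ^ ((d : ℝ) / ((d : ℝ) - 1)) →
      ∃ s C : ℝ, 0 < s ∧ s < 1 ∧ ∀ (k : ℕ) (D : Fin k → Finset ℕ), Digits q k D →
        (((Dig q k D).filter (fun n : ℕ => ¬ (f.eval (n : ℤ) ∉ E d m r ∧ (0 < f.eval (n : ℤ) →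
          ¬ (d : ℤ) ∣ f.eval (n : ℤ) → Low d m r (1 - s) (f.eval (n : ℤ)))))).card : ℝ) ≤
            C * ((Dig q k D).card : ℝ) ^ (1 - s)) := by
  have hd1 : (1 : ℝ) < d := by exact_mod_cast (by omega : 1 < d)
  have hd0 : (0 : ℝ) < d := by linarith
  have hm0 : (0 : ℝ) < m := by exact_mod_cast (by omega : 0 < m)
  have hq1 : (1 : ℝ) < q := by exact_mod_cast (by omega : 1 < q)
  have hq0 : (0 : ℝ) < q := by linarith
  have hlq : 0 < Real.log q := Real.log_pos hq1
  have hr' : ∀ j : ℤ, 1 ≤ j → j < d → (d : ℤ) ∣ m * j - r j := fun j h1 h2 => (hr j h1 h2).dvd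
  have D := Mo.data (r := r) hd hc hr'
  have hC := Mo.cls (m := m) (r := r) hd
  have hTT : (Pool.Agent.H319R2.Leigh.gm D).T = Mo.T d m r := by rw [Pool.Agent.H319R2.Leigh.gm_T, Mo.T_eq]
  have hTT' : Mo.T d m r = T d m r := rfl
  have hqd' : Nat.Coprime q (Pool.Agent.H319R2.Leigh.gm D).d := hqd
  have hmu := Mo.mu_eq hd D
  refine ⟨fun ε hε => ?_, fun hle => ?_⟩
  · obtain ⟨c, δ, hc0, hδ, k₀, h⟩ := Pool.Agent.Q263.MG.traj_exp (Pool.Agent.H319R2.Leigh.gm_fac D)
      (Pool.Agent.H319R2.Leigh.gm_cls D hC) hf q hq hqd' hε 0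
    have h' := convert hq hδ k₀ (fun k Dg => (Dig q k Dg).filter
      (fun n : ℕ => ¬ Prof d m r ε (c * k) (f.eval (n : ℤ)))) (fun k Dg => filter_subset _ _) (by
        intro k hk Dg hDg
        apply h k hk Dg hDg.1 hDg.2 _ (filter_subset _ _)
        intro n hn
        rw [mem_filter] at hn
        refine ⟨Mo.mem_S hd _, ?_⟩
        rintro ⟨-, h2⟩
        apply hn.2
        intro j hj
        have h3 := h2 j (by
          have e1 : ((Pool.Agent.H319R2.Leigh.gm D).d : ℝ) = d := rfl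
          rw [e1]
          calc (d : ℝ) ^ j = Real.exp (j * Real.log d) := by
                rw [Real.exp_nat_mul, Real.exp_log hd0]
            _ ≤ _ := Real.exp_le_exp.2 hj)
        rw [hTT, hTT', hmu] at h3
        have e2 : Real.exp (j * (((d : ℝ) - 1) / d * Real.log m - Real.log d)) =
            ((m : ℝ) ^ (((d : ℝ) - 1) / d) / d) ^ j := by
          rw [Real.exp_nat_mul]
          congr 1
          rw [Real.exp_sub, Real.exp_log hd0, Real.rpow_def_of_pos hm0]
          congr 2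
          ring
        rw [e2, ← Real.exp_mul, ← Real.exp_mul] at h3
        have e3 : c * (k : ℝ) * -ε = -(ε * (c * k)) := by ring
        have e4 : c * (k : ℝ) * ε = ε * (c * k) := by ring
        rw [e3, e4, mul_assoc, mul_assoc] at h3
        exact h3)
    refine ⟨c, min (δ / Real.log q) (1 / 2), (q : ℝ) ^ k₀, hc0, lt_min (by positivity) (by norm_num),
      lt_of_le_of_lt (min_le_right _ _) (by norm_num), fun k Dg hDg => ?_⟩
    exact h' _ (min_le_left _ _) ((min_le_right _ _).trans (by norm_num)) k Dg hDg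
  · have hμ : mu (Pool.Agent.H319R2.Leigh.gm D) (Mo.CC d) (fun _ => 1 / (d : ℝ)) < 0 := by
      rw [hmu]
      have := Mo.m_lt hd hm hc hle
      linarith
    obtain ⟨c, c₂, δ, hc0, hc₂, hδ, k₀, h⟩ := Pool.Agent.Q263.MG.drop (Pool.Agent.H319R2.Leigh.gm_fac D)
      (Pool.Agent.H319R2.Leigh.gm_cls D hC) hμ hf q hq hqd'
    rw [hTT] at h
    obtain ⟨B', hB', hsize⟩ := size q hq f
    obtain ⟨η, hη⟩ : ∃ η, η = min (c₂ / B') (1 / 2) := ⟨_, rfl⟩
    have hη0 : 0 < η := by rw [hη]; exact lt_min (by positivity) (by norm_num)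
    have hη1 : η ≤ c₂ / B' := by rw [hη]; exact min_le_left _ _
    have hη2 : η ≤ 1 / 2 := by rw [hη]; exact min_le_right _ _
    set s : ℝ := min (min (δ / Real.log q) (1 / 2)) η with hs
    have hs0 : 0 < s := lt_min (lt_min (by positivity) (by norm_num)) hη0
    have hs1 : s ≤ δ / Real.log q := (min_le_left _ _).trans (min_le_left _ _)
    have hs2 : s ≤ 1 / 2 := (min_le_left _ _).trans (min_le_right _ _)
    have hs3 : s ≤ η := min_le_right _ _
    have hev : ∀ᶠ k : ℕ in atTop, ((Mo.bd d r : ℕ) : ℝ) ≤ Real.exp (c / 2 * k) ∧ 1 ≤ k := by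
      have h1 : Tendsto (fun s : ℕ => Real.exp (c / 2 * s)) atTop atTop :=
        Real.tendsto_exp_atTop.comp (tendsto_natCast_atTop_atTop.const_mul_atTop (by positivity))
      exact (h1.eventually (eventually_ge_atTop _)).and (eventually_ge_atTop 1)
    obtain ⟨k₂, hk₂⟩ := eventually_atTop.1 hev
    have h' := convert hq hδ (max k₀ k₂) (fun k Dg => (Dig q k Dg).filter
      (fun n : ℕ => ¬ (f.eval (n : ℤ) ∉ E d m r ∧ (0 < f.eval (n : ℤ) →
          ¬ (d : ℤ) ∣ f.eval (n : ℤ) → Low d m r (1 - s) (f.eval (n : ℤ))))))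
      (fun k Dg => filter_subset _ _) (by
        intro k hk Dg hDg
        apply h k ((le_max_left _ _).trans hk) Dg hDg.1 hDg.2 _ (filter_subset _ _)
        intro n hn
        rw [mem_filter] at hn
        refine ⟨Mo.mem_S hd _, ?_⟩
        rintro ⟨h1, j, -, h2⟩
        obtain ⟨hbd, hk1⟩ := hk₂ k ((le_max_right _ _).trans hk)
        have hk1r : (1 : ℝ) ≤ k := by exact_mod_cast hk1
        apply hn.2
        have hnq : n < q ^ k := by
          have := hn.1
          unfold Pool.Agent.Q263.MD.Dig at this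
          rw [mem_filter, mem_range] at this
          exact this.1
        have h6 := hsize k n hk1 hnq
        set y := f.eval (n : ℤ) with hydef
        have hlow : 0 < y → ¬ (d : ℤ) ∣ y → ∃ k' : ℕ, Defined d m r y k' ∧ 0 < (H d m r)^[k'] y ∧
            (((H d m r)^[k'] y : ℤ) : ℝ) ≤ (y : ℝ) ^ (1 - s) := by
          intro hy hyd
          have hyr : (0 : ℝ) < (y : ℝ) := by exact_mod_cast hy
          have hy1 : (1 : ℝ) ≤ y := by exact_mod_cast hy
          rw [abs_of_pos hyr] at h1 h2 h6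
          refine descent hd hm hr' hy hyd (k := j) ?_ ?_
          · refine h2.trans (((Pool.Agent.Y57.HS.exp_to_pow hc₂ hB' hyr h6).1).trans ?_)
            exact Real.rpow_le_rpow_of_exponent_le hy1 (by linarith)
          · refine hbd.trans ?_
            calc Real.exp (c / 2 * k) = (Real.exp (c * k)) ^ (1 / 2 : ℝ) := by
                  rw [← Real.exp_mul]
                  congr 1
                  ring
              _ ≤ (y : ℝ) ^ (1 / 2 : ℝ) := Real.rpow_le_rpow (by positivity) h1 (by norm_num)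
              _ ≤ _ := Real.rpow_le_rpow_of_exponent_le hy1 (by linarith)
        refine ⟨?_, hlow⟩
        rintro ⟨hy, hyd, hEy⟩
        obtain ⟨k', h3, h4, h5⟩ := hlow hy hyd
        have hyr : (0 : ℝ) < (y : ℝ) := by exact_mod_cast hy
        rw [abs_of_pos hyr] at h1
        have hy2 : (1 : ℝ) < y := lt_of_lt_of_le (Real.one_lt_exp_iff.2 (by positivity)) h1
        have h7 : (((H d m r)^[k'] y : ℤ) : ℝ) < y := by
          refine lt_of_le_of_lt h5 ?_
          calc (y : ℝ) ^ (1 - s) < (y : ℝ) ^ (1 : ℝ) := Real.rpow_lt_rpow_of_exponent_lt hy2 (by linarith)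
            _ = y := Real.rpow_one _
        have h8 : (H d m r)^[k'] y < y := by exact_mod_cast h7
        rcases Nat.eq_zero_or_pos k' with h0 | h0
        · subst h0
          simp at h8
        · have := hEy k' h0 h3
          omega)
    exact ⟨s, (q : ℝ) ^ (max k₀ k₂), hs0, by linarith, fun k Dg hDg => h' s hs1 (by linarith) k Dg hDg⟩

end Pool.Agent.Results.MP_fd8838_nt.RestrictedDigits
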