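import Pool.Agent.Q158.Col4.Main

set_option autoImplicit false

/-!
# Terras' theorem in all intervals, up to the time `(2 / log (4/3)) log L`

`T x = x/2`, `(3x+1)/2` on the integers. By Terras' theorem, for `x` in an interval of length `L` and
`t ≤ log_2 L` the first `t` parities of the trajectory are equidistributed. We prove that up to the time
`t ≤ (2 / log (4/3) - ε) log L = (6.95 - ε) log L`, in every interval of length `L`, wherever it lies on
the real line, the joint law of the number of odd steps up to the time `t` and of `T^t x` modulo `q`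
(`q ≤ L ^ δ` prime to `3`) is within `C_B (log L)^(-B)`, in total variation, of the product of the
binomial law and the uniform law. The range is best possible.

Method. One follows the odd integers of a window through `k` odd steps, `k = (log L) / 2`. The points with
`T` halvings move to the window multiplied by `3 ^ k / 2 ^ T`. By the fine scale mixing of the offsets of
the words (Tao; here the theorem `mix` of the starting files for the words of given size `T`) a set which
has density at most `ρ T` in all residue classes modulo a small power of `3` of this window has preimages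
of density at most the mean of the `ρ T` up to `C_B (log L)^(-B)`. One applies this to an event and to
its complement, and iterates; the lengths of the windows are `L, L^κ, L^(κ²), ...`, `κ = 1 - log (4/3) / 2`,
and the total time `(1 + κ + κ² + ...) log L = (2 / log (4/3)) log L`.
-/

namespace Pool.Agent.Results.MP_fd8838_nt.TerrasLawAllIntervals

/-- the Collatz map on the integers, with one halving per step -/
def T (x : ℤ) : ℤ := if x % 2 = 0 then x / 2 else (3 * x + 1) / 2

/-- the number of odd terms among `x, T x, ..., T^(t-1) x` -/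
def odds (t : ℕ) (x : ℤ) : ℕ := ((Finset.range t).filter (fun i => T^[i] x % 2 = 1)).card

/-- the probability that `E k r` holds, for a binomial variable `k` (number of heads of `t` fair coins)
and an independent uniform variable `r` in `{0, ..., q - 1}` -/
noncomputable def model (t q : ℕ) (E : ℕ → ℤ → Prop) : ℝ :=
  ∑ k ∈ Finset.range (t + 1), (t.choose k : ℝ) / 2 ^ t * (({r : ℕ | r < q ∧ E k r}.ncard : ℝ) / q)

/-- the constant of the threshold, `6.95...` -/
noncomputable def c : ℝ := 2 / Real.log (4 / 3)

/-- (1) For all `ε > 0` and `B` there are `δ, C > 0` such that for all `L ≥ 2`, all intervals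
`[a, a + L)`, all `t ≤ (c - ε) log L`, all `q ≤ L ^ δ` prime to `3` and all events `E`: the proportion of
the integers `x` of the interval for which `E` holds for the number of odd steps up to the time `t` and
the residue of `T^t x` modulo `q` is the model probability of `E`, up to `C (log L)^(-B)`.
(2) For every `ε > 0` there are `θ > 0` and `L₀` such that for all `L ≥ L₀` and `M ≥ (c + ε) log L` there is
a time `s ≤ (c + ε) log L` at which at least `(1/2 + θ) L` of the integers `n` of `[2^M - L, 2^M)` have an
odd value `T^s n`. -/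
theorem result :
    (∀ ε : ℝ, 0 < ε → ∀ B : ℕ, ∃ δ C : ℝ, 0 < δ ∧ 0 < C ∧ ∀ L : ℕ, 2 ≤ L → ∀ (a : ℤ) (t : ℕ),
      (t : ℝ) ≤ (c - ε) * Real.log L → ∀ q : ℕ, 1 ≤ q → ¬ 3 ∣ q → (q : ℝ) ≤ (L : ℝ) ^ δ →
      ∀ E : ℕ → ℤ → Prop,
      |({x : ℤ | a ≤ x ∧ x < a + L ∧ E (odds t x) (T^[t] x % q)}.ncard : ℝ) / L - model t q E| ≤
        C / Real.log L ^ B) ∧
    (∀ ε : ℝ, 0 < ε → ∃ θ : ℝ, 0 < θ ∧ ∃ L₀ : ℕ, ∀ L ≥ L₀, ∀ M : ℕ, (c + ε) * Real.log L ≤ M →
      ∃ s : ℕ, (s : ℝ) ≤ (c + ε) * Real.log L ∧
      (1 / 2 + θ) * L ≤ ({n : ℤ | 2 ^ M - (L : ℤ) ≤ n ∧ n < 2 ^ M ∧ T^[s] n % 2 = 1}.ncard : ℝ)) :=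
  ⟨fun _ hε B => Pool.Agent.Q158.Col4.law hε B, fun _ hε => Pool.Agent.Q158.Col4.threshold hε⟩

end Pool.Agent.Results.MP_fd8838_nt.TerrasLawAllIntervals
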